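import Pool.Agent.W42.RG.Defs2
import Pool.Agent.W490.LX.LA

set_option autoImplicit false

/-!
# Project LY: existence of a rotating Jordan block
-/

namespace Pool.Agent.W460.LY

open Filter Topology Pool.Agent.W42.RG
open Pool.Agent.W490.LX (re im cx re_add im_add re_smul re_cx re_pow cx_mul cx_one expS mem_expS_of
  inv_eig)

section

variable {V : Type} [AddCommGroup V] [Module ℝ V]

/-- the orbit of `Y` is bounded modulo `K` -/
def Bd [TopologicalSpace V] (A : V ≃ₗ[ℝ] V) (K : Submodule ℝ V) (Y : V) : Prop :=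
  ∃ C : Set V, IsCompact C ∧ ∀ n : ℤ, ∃ W ∈ K, (A ^ n) Y - W ∈ C

theorem inv_mem {A : V ≃ₗ[ℝ] V} {K : Submodule ℝ V} (hK : ∀ Y, A Y ∈ K ↔ Y ∈ K) (n : ℤ) :
    ∀ Y, (A ^ n) Y ∈ K ↔ Y ∈ K := by
  induction n using Int.induction_on with
  | zero => intro Y; rw [zpow_zero]; rfl
  | succ n ih =>
    intro Y
    rw [zpow_add_one, LinearEquiv.mul_apply, ih, hK]
  | pred n ih =>
    intro Y
    rw [zpow_sub_one, LinearEquiv.mul_apply, ih, ← hK]
    have e : A (A⁻¹ Y) = Y := LinearEquiv.apply_symm_apply A Y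
    rw [e]

theorem zorb {A : V ≃ₗ[ℝ] V} {K : Submodule ℝ V} (hK : ∀ Y, A Y ∈ K ↔ Y ∈ K) (g : ℤ → V)
    (hg : ∀ n, A (g n) - g (n + 1) ∈ K) (n : ℤ) : (A ^ n) (g 0) - g n ∈ K := by
  induction n using Int.induction_on with
  | zero =>
    rw [zpow_zero]
    have : (1 : V ≃ₗ[ℝ] V) (g 0) - g 0 = 0 := sub_self _
    rw [this]
    exact K.zero_mem
  | succ n ih =>
    have h1 := K.add_mem ((hK _).2 ih) (hg n)
    have e : (A ^ ((n : ℤ) + 1)) (g 0) = A ((A ^ (n : ℤ)) (g 0)) := by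
      rw [add_comm, zpow_one_add, LinearEquiv.mul_apply]
    rw [e]
    rw [map_sub] at h1
    have e2 : A ((A ^ (n : ℤ)) (g 0)) - g ((n : ℤ) + 1) =
        A ((A ^ (n : ℤ)) (g 0)) - A (g n) + (A (g n) - g ((n : ℤ) + 1)) := by abel
    rw [e2]
    exact h1
  | pred n ih =>
    have h2 := hg (-(n : ℤ) - 1)
    rw [sub_add_cancel] at h2
    rw [← hK, map_sub]
    have e : A ((A ^ (-(n : ℤ) - 1)) (g 0)) = (A ^ (-(n : ℤ))) (g 0) := by
      rw [← LinearEquiv.mul_apply, ← zpow_one_add, add_sub_cancel]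
    rw [e]
    have h1 := K.sub_mem ih h2
    have e2 : (A ^ (-(n : ℤ))) (g 0) - A (g (-(n : ℤ) - 1)) =
        (A ^ (-(n : ℤ))) (g 0) - g (-(n : ℤ)) - (A (g (-(n : ℤ) - 1)) - g (-(n : ℤ))) := by abel
    rw [e2]
    exact h1

theorem Bd_of_mem [TopologicalSpace V] {A : V ≃ₗ[ℝ] V} {K : Submodule ℝ V}
    (hK : ∀ Y, A Y ∈ K ↔ Y ∈ K) {Y : V} (hY : Y ∈ K) : Bd A K Y :=
  ⟨{0}, isCompact_singleton, fun n => ⟨(A ^ n) Y, (inv_mem hK n Y).2 hY, by simp⟩⟩

theorem Bd_of [TopologicalSpace V] {A : V ≃ₗ[ℝ] V} {K : Submodule ℝ V}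
    (hK : ∀ Y, A Y ∈ K ↔ Y ∈ K) (g : ℤ → V) (hg : ∀ n, A (g n) - g (n + 1) ∈ K) (C : Set V)
    (hC : IsCompact C) (hgC : ∀ n, g n ∈ C) : Bd A K (g 0) :=
  ⟨C, hC, fun n => ⟨(A ^ n) (g 0) - g n, zorb hK g hg n, by
    rw [sub_sub_cancel]
    exact hgC n⟩⟩

theorem Bd_add [TopologicalSpace V] [ContinuousAdd V] {A : V ≃ₗ[ℝ] V} {K : Submodule ℝ V}
    {Y Z : V} (hY : Bd A K Y) (hZ : Bd A K Z) : Bd A K (Y + Z) := by
  obtain ⟨C, hC, h⟩ := hY
  obtain ⟨C', hC', h'⟩ := hZ
  refine ⟨(fun p : V × V => p.1 + p.2) '' (C ×ˢ C'), (hC.prod hC').image continuous_add,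
    fun n => ?_⟩
  obtain ⟨W, hW, hW'⟩ := h n
  obtain ⟨W', hW1, hW1'⟩ := h' n
  refine ⟨W + W', K.add_mem hW hW1, ?_⟩
  have e : (A ^ n) (Y + Z) - (W + W') = ((A ^ n) Y - W) + ((A ^ n) Z - W') := by
    rw [map_add]
    abel
  rw [e]
  exact ⟨(_, _), ⟨hW', hW1'⟩, rfl⟩

/-! ### Complexification -/

variable {n : ℕ}

theorem re_rsmul (r : ℝ) (u : Fin n → ℂ) : re (((r : ℝ) : ℂ) • u) = r • re u := by
  funext i
  simp [re]

/-- the map `ζ ↦ Re (ζ v)` -/
noncomputable def ph (e : V ≃ₗ[ℝ] (Fin n → ℝ)) (v : Fin n → ℂ) : ℂ →ₗ[ℝ] V where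
  toFun ζ := e.symm (re (ζ • v))
  map_add' ζ ζ' := by rw [add_smul, re_add, map_add]
  map_smul' r ζ := by
    have h1 : (r • ζ) • v = ((r : ℝ) : ℂ) • (ζ • v) := by
      rw [smul_smul]
      congr 1
    rw [h1, re_rsmul, map_smul, RingHom.id_apply]

theorem ph_apply (e : V ≃ₗ[ℝ] (Fin n → ℝ)) (v : Fin n → ℂ) (ζ : ℂ) :
    ph e v ζ = e.symm (re (ζ • v)) := rfl

theorem ph_add (e : V ≃ₗ[ℝ] (Fin n → ℝ)) (u v : Fin n → ℂ) (ζ : ℂ) :
    ph e (u + v) ζ = ph e u ζ + ph e v ζ := by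
  rw [ph_apply, ph_apply, ph_apply, smul_add, re_add, map_add]

theorem ph_zero (e : V ≃ₗ[ℝ] (Fin n → ℝ)) (ζ : ℂ) : ph e 0 ζ = 0 := by
  have h : re (0 : Fin n → ℂ) = 0 := by
    funext i
    simp [re]
  rw [ph_apply, smul_zero, h, map_zero]

theorem ph_smul (e : V ≃ₗ[ℝ] (Fin n → ℝ)) (c : ℂ) (v : Fin n → ℂ) (ζ : ℂ) :
    ph e (c • v) ζ = ph e v (c * ζ) := by
  rw [ph_apply, ph_apply, smul_smul, mul_comm]

theorem ph_sub (e : V ≃ₗ[ℝ] (Fin n → ℝ)) (u v : Fin n → ℂ) (ζ : ℂ) :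
    ph e (u - v) ζ = ph e u ζ - ph e v ζ := by
  have h := ph_add e (u - v) v ζ
  rw [sub_add_cancel] at h
  rw [h, add_sub_cancel_right]

theorem A_ph {A : V ≃ₗ[ℝ] V} {e : V ≃ₗ[ℝ] (Fin n → ℝ)} {M : Module.End ℝ (Fin n → ℝ)}
    (hM : ∀ x, A (e.symm x) = e.symm (M x)) (v : Fin n → ℂ) (ζ : ℂ) :
    A (ph e v ζ) = ph e (cx M v) ζ := by
  rw [ph_apply, hM, ← re_cx, map_smul, ph_apply]

theorem nw_ph {A : V ≃ₗ[ℝ] V} {e : V ≃ₗ[ℝ] (Fin n → ℝ)} {M : Module.End ℝ (Fin n → ℝ)}
    (hM : ∀ x, A (e.symm x) = e.symm (M x)) (ω : ℂ) (v : Fin n → ℂ) :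
    nw A ω (ph e v) = ph e ((cx M - ω • (1 : Module.End ℂ (Fin n → ℂ))) v) := by
  refine LinearMap.ext fun ζ => ?_
  have h1 : nw A ω (ph e v) ζ = A (ph e v ζ) - ph e v (ω * ζ) := rfl
  rw [h1, A_ph hM, LinearMap.sub_apply, LinearMap.smul_apply, Module.End.one_apply, ph_sub, ph_smul]

theorem nw_iter {A : V ≃ₗ[ℝ] V} {e : V ≃ₗ[ℝ] (Fin n → ℝ)} {M : Module.End ℝ (Fin n → ℝ)}
    (hM : ∀ x, A (e.symm x) = e.symm (M x)) (ω : ℂ) (m : ℕ) (v : Fin n → ℂ) :
    (nw A ω)^[m] (ph e v) = ph e (((cx M - ω • (1 : Module.End ℂ (Fin n → ℂ))) ^ m) v) := by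
  induction m with
  | zero => rfl
  | succ m ih =>
    rw [Function.iterate_succ_apply', ih, nw_ph hM, pow_succ', Module.End.mul_apply]

theorem pow_ph {A : V ≃ₗ[ℝ] V} {e : V ≃ₗ[ℝ] (Fin n → ℝ)} {M : Module.End ℝ (Fin n → ℝ)}
    (hM : ∀ x, A (e.symm x) = e.symm (M x)) (q : ℕ) (v : Fin n → ℂ) (ζ : ℂ) :
    (A ^ q) (ph e v ζ) = ph e ((cx M ^ q) v) ζ := by
  induction q with
  | zero => rfl
  | succ q ih =>
    rw [pow_succ', LinearEquiv.mul_apply, ih, A_ph hM, pow_succ' (cx M), Module.End.mul_apply]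

theorem nA_ph {A : V ≃ₗ[ℝ] V} {e : V ≃ₗ[ℝ] (Fin n → ℝ)} {M : Module.End ℝ (Fin n → ℝ)}
    (hM : ∀ x, A (e.symm x) = e.symm (M x)) (q m : ℕ) (v : Fin n → ℂ) (ζ : ℂ) :
    ((nA (A ^ q)) ^ m) (ph e v ζ) =
      ph e (((cx M ^ q - (1 : Module.End ℂ (Fin n → ℂ))) ^ m) v) ζ := by
  induction m with
  | zero => rfl
  | succ m ih =>
    rw [pow_succ', Module.End.mul_apply, ih, pow_succ' (cx M ^ q - 1), Module.End.mul_apply]
    have h1 : ∀ w, nA (A ^ q) w = (A ^ q) w - w := fun _ => rfl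
    rw [h1, pow_ph hM, LinearMap.sub_apply, Module.End.one_apply, ph_sub]

theorem ctr_of [FiniteDimensional ℝ V] [TopologicalSpace V] [IsTopologicalAddGroup V]
    [ContinuousSMul ℝ V] [T2Space V] {f : V → V} {e : V ≃ₗ[ℝ] (Fin n → ℝ)}
    {M : Module.End ℝ (Fin n → ℝ)} (hM : ∀ x, f (e.symm x) = e.symm (M x)) {u : Fin n → ℂ}
    (hu : u ∈ expS (cx M)) : e.symm (re u) ∈ ctr f := by
  have k1 : ∀ (m : ℕ) (x : Fin n → ℝ), f^[m] (e.symm x) = e.symm ((M ^ m) x) := by
    intro m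
    induction m with
    | zero => intro x; rfl
    | succ m ih =>
      intro x
      rw [Function.iterate_succ_apply', ih, pow_succ', Module.End.mul_apply, hM]
  have hecont : Continuous e.symm :=
    LinearMap.continuous_of_finiteDimensional (e.symm : (Fin n → ℝ) →ₗ[ℝ] V)
  obtain ⟨r, hr, ht⟩ := hu
  refine ⟨r, hr, ?_⟩
  have hr0 : ∀ m : ℕ, 0 ≤ r ^ m := fun m => by positivity
  have t1 : Tendsto (fun m : ℕ => r ^ m • (M ^ m) (re u)) atTop (𝓝 0) := by
    rw [tendsto_zero_iff_norm_tendsto_zero]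
    refine squeeze_zero (fun m => norm_nonneg _) (fun m => ?_) ht
    rw [norm_smul, Real.norm_of_nonneg (hr0 m)]
    refine mul_le_mul_of_nonneg_left ?_ (hr0 m)
    rw [← re_pow]
    refine (pi_norm_le_iff_of_nonneg (norm_nonneg _)).2 fun i => ?_
    exact (Complex.abs_re_le_norm _).trans (norm_le_pi_norm _ i)
  have t2 := (hecont.tendsto 0).comp t1
  rw [map_zero] at t2
  refine t2.congr fun m => ?_
  simp only [Function.comp, map_smul, k1]

end

/-- EXI -/
theorem t_EXI : S_EXI := by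
  intro V _ _ _ _ _ _ _ A
  classical
  obtain ⟨n, e, M, hM, M', hM', h1, h2⟩ : ∃ (n : ℕ) (e : V ≃ₗ[ℝ] (Fin n → ℝ))
      (M : Module.End ℝ (Fin n → ℝ)) (_ : ∀ x, A (e.symm x) = e.symm (M x))
      (M' : Module.End ℝ (Fin n → ℝ)) (_ : ∀ x, A.symm (e.symm x) = e.symm (M' x)),
      M * M' = 1 ∧ M' * M = 1 := by
    obtain ⟨n, e, -⟩ : ∃ (n : ℕ) (_ : V ≃ₗ[ℝ] (Fin n → ℝ)), True :=
      ⟨Module.finrank ℝ V, (Module.finBasis ℝ V).equivFun, trivial⟩
    refine ⟨n, e, (e : V →ₗ[ℝ] _) ∘ₗ (A : V →ₗ[ℝ] V) ∘ₗ (e.symm : (Fin n → ℝ) →ₗ[ℝ] V), ?_,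
      (e : V →ₗ[ℝ] _) ∘ₗ (A.symm : V →ₗ[ℝ] V) ∘ₗ (e.symm : (Fin n → ℝ) →ₗ[ℝ] V), ?_, ?_, ?_⟩
    · intro x
      simp
    · intro x
      simp
    · refine LinearMap.ext fun x => ?_
      simp [Module.End.mul_apply]
    · refine LinearMap.ext fun x => ?_
      simp [Module.End.mul_apply]
  obtain ⟨Mc, hMc⟩ : ∃ Mc : Module.End ℂ (Fin n → ℂ), Mc = cx M := ⟨_, rfl⟩
  obtain ⟨Mi, hMi⟩ : ∃ Mi : Module.End ℂ (Fin n → ℂ), Mi = cx M' := ⟨_, rfl⟩
  have hAB : Mc * Mi = 1 := by rw [hMc, hMi, cx_mul, h1, cx_one]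
  have hBA : Mi * Mc = 1 := by rw [hMc, hMi, cx_mul, h2, cx_one]
  -- the exponent
  have hfin : (spectrum ℂ Mc).Finite := Module.End.finite_spectrum Mc
  obtain ⟨q, hq1, hq⟩ : ∃ q : ℕ, 1 ≤ q ∧ ∀ μ ∈ spectrum ℂ Mc, (∃ k : ℕ, 1 ≤ k ∧ μ ^ k = 1) →
      μ ^ q = 1 := by
    refine ⟨∏ μ ∈ hfin.toFinset, if h : ∃ k : ℕ, 1 ≤ k ∧ μ ^ k = 1 then h.choose else 1, ?_, ?_⟩
    · rw [Nat.one_le_iff_ne_zero, Finset.prod_ne_zero_iff]
      intro μ _
      split_ifs with h
      · have := h.choose_spec.1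
        omega
      · exact one_ne_zero
    · intro μ hμ h
      have hd : h.choose ∣ ∏ μ ∈ hfin.toFinset,
          if h : ∃ k : ℕ, 1 ≤ k ∧ μ ^ k = 1 then h.choose else 1 := by
        have h3 := Finset.dvd_prod_of_mem
          (fun μ : ℂ => if h : ∃ k : ℕ, 1 ≤ k ∧ μ ^ k = 1 then h.choose else 1)
          (hfin.mem_toFinset.2 hμ)
        simp only [dif_pos h] at h3
        exact h3
      obtain ⟨t, ht⟩ := hd
      rw [ht, pow_mul, h.choose_spec.2, one_pow]
  refine ⟨q, hq1, fun K hK hc1 hc2 hu hnE => ?_⟩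
  by_contra hno
  apply hnE
  refine ⟨fun Y hY => (hK Y).2 hY, ?_⟩
  -- the subspace of all vectors with bounded orbits
  obtain ⟨P, hP⟩ : ∃ P : Submodule ℂ (Fin n → ℂ), ∀ v, v ∈ P ↔ ∀ ζ, Bd A K (ph e v ζ) :=
    ⟨{ carrier := {v | ∀ ζ, Bd A K (ph e v ζ)}
       add_mem' := fun {u v} hu hv ζ => by
         rw [ph_add]
         exact Bd_add (hu ζ) (hv ζ)
       zero_mem' := fun ζ => by
         rw [ph_zero]
         exact Bd_of_mem hK K.zero_mem
       smul_mem' := fun c v hv ζ => by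
         rw [ph_smul]
         exact hv _ }, fun v => Iff.rfl⟩
  have htop : (⊤ : Submodule ℂ (Fin n → ℂ)) ≤ P := by
    rw [← Module.End.iSup_maxGenEigenspace_eq_top Mc]
    refine iSup_le fun μ => ?_
    intro v hv
    rw [Module.End.mem_maxGenEigenspace] at hv
    obtain ⟨k, hk⟩ := hv
    rw [hP]
    intro ζ
    by_cases hμ : μ = 0
    · have hc : Commute Mi Mc := hBA.trans hAB.symm
      have h0 : v = 0 := by
        have h1 : (Mi ^ k * Mc ^ k) v = v := by
          rw [← hc.mul_pow, hBA, one_pow, Module.End.one_apply]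
        rw [hμ, zero_smul, sub_zero] at hk
        rw [← h1, Module.End.mul_apply, hk, map_zero]
      rw [h0, ph_zero]
      exact Bd_of_mem hK K.zero_mem
    · rcases lt_trichotomy ‖μ‖ 1 with h | h | h
      · -- contracted
        refine Bd_of_mem hK (hc1 _ ?_)
        rw [ph_apply]
        refine ctr_of hM ?_
        rw [← hMc]
        exact (expS Mc).smul_mem ζ (mem_expS_of hμ h hk)
      · by_cases hroot : ∃ k : ℕ, 1 ≤ k ∧ μ ^ k = 1
        · -- roots of unity
          by_cases hv0 : v = 0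
          · rw [hv0, ph_zero]
            exact Bd_of_mem hK K.zero_mem
          have hspec : μ ∈ spectrum ℂ Mc := by
            by_contra hns
            rw [spectrum.notMem_iff, Algebra.algebraMap_eq_smul_one] at hns
            have hns' : IsUnit ((Mc - μ • (1 : Module.End ℂ (Fin n → ℂ))) ^ k) := by
              have := hns.neg
              rw [neg_sub] at this
              exact this.pow k
            obtain ⟨w, hw⟩ := hns'
            apply hv0
            have e1 : ((w⁻¹ : (Module.End ℂ (Fin n → ℂ))ˣ) : Module.End ℂ (Fin n → ℂ)) *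
                ((Mc - μ • (1 : Module.End ℂ (Fin n → ℂ))) ^ k) = 1 := by
              rw [← hw, Units.inv_mul]
            have e2 := congrArg (fun f => f v) e1
            simp only [Module.End.mul_apply, Module.End.one_apply] at e2
            rw [← e2, hk, map_zero]
          have hμq : μ ^ q = 1 := hq μ hspec hroot
          obtain ⟨g, hg⟩ : (Polynomial.X - Polynomial.C μ) ∣
              (Polynomial.X ^ q - 1 : Polynomial ℂ) := by
            rw [Polynomial.dvd_iff_isRoot, Polynomial.IsRoot.def, Polynomial.eval_sub,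
              Polynomial.eval_pow, Polynomial.eval_X, Polynomial.eval_one, hμq, sub_self]
          have hz : ((Mc ^ q - (1 : Module.End ℂ (Fin n → ℂ))) ^ k) v = 0 := by
            have e1 : (Polynomial.X ^ q - 1 : Polynomial ℂ) ^ k =
                g ^ k * (Polynomial.X - Polynomial.C μ) ^ k := by
              rw [hg, mul_pow, mul_comm]
            have e2 := congrArg (Polynomial.aeval Mc) e1
            rw [map_pow, map_sub, map_pow, Polynomial.aeval_X, map_one, map_mul, map_pow, map_pow,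
              map_sub, Polynomial.aeval_X, Polynomial.aeval_C,
              Algebra.algebraMap_eq_smul_one] at e2
            rw [e2, Module.End.mul_apply, hk, map_zero]
          obtain ⟨Y, hY⟩ : ∃ Y, Y = ph e v ζ := ⟨_, rfl⟩
          have hYK : (A ^ q) Y - Y ∈ K := by
            refine hu _ ⟨Y, k, ?_, rfl⟩
            rw [hY, nA_ph hM, ← hMc, hz, ph_zero]
          rw [← hY]
          have hq0 : (0 : ℤ) < (q : ℤ) := by exact_mod_cast hq1
          have hBd := Bd_of hK (fun m : ℤ => (A ^ (m % (q : ℤ))) Y) (fun m => ?_)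
            ((fun j : ℕ => (A ^ ((j : ℕ) : ℤ)) Y) '' (Finset.range q : Set ℕ))
            ((Finset.finite_toSet _).image _).isCompact (fun m => ?_)
          · simp only [Int.zero_emod, zpow_zero] at hBd
            exact hBd
          · have b1 := Int.emod_nonneg m hq0.ne'
            have b2 := Int.emod_lt_of_pos m hq0
            have e0 : A ((A ^ (m % (q : ℤ))) Y) = (A ^ (m % (q : ℤ) + 1)) Y := by
              rw [add_comm, zpow_one_add, LinearEquiv.mul_apply]
            rw [e0]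
            by_cases hlt : m % (q : ℤ) + 1 < q
            · have e3 : (m + 1) % (q : ℤ) = m % (q : ℤ) + 1 := by
                rw [← Int.emod_emod_of_dvd (m + 1) (dvd_refl (q : ℤ)), Int.add_emod,
                  Int.emod_emod_of_dvd _ (dvd_refl (q : ℤ))]
                have : (m % (q : ℤ) + 1 % (q : ℤ)) % (q : ℤ) = (m % (q : ℤ) + 1) % (q : ℤ) := by
                  rw [Int.add_emod, Int.emod_emod_of_dvd _ (dvd_refl (q : ℤ)),
                    Int.emod_emod_of_dvd _ (dvd_refl (q : ℤ)), ← Int.add_emod,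
                    Int.emod_add_emod]
                rw [this]
                exact Int.emod_eq_of_lt (by omega) hlt
              rw [e3, sub_self]
              exact K.zero_mem
            · have e4 : m % (q : ℤ) + 1 = q := by omega
              have e3 : (m + 1) % (q : ℤ) = 0 := by
                apply Int.emod_eq_zero_of_dvd
                refine ⟨m / q + 1, ?_⟩
                have := Int.emod_add_mul_ediv m (q : ℤ)
                linear_combination -this + e4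
              rw [e3, e4, zpow_zero, zpow_natCast]
              exact hYK
          · have b1 := Int.emod_nonneg m hq0.ne'
            have b2 := Int.emod_lt_of_pos m hq0
            refine ⟨(m % (q : ℤ)).toNat, ?_, ?_⟩
            · rw [Finset.mem_coe, Finset.mem_range]
              omega
            · simp only
              rw [Int.toNat_of_nonneg b1]
        · -- rotations of infinite order
          push Not at hroot
          have hdesc : ∀ d : ℕ, 1 ≤ d → (∀ ζ, (nw A μ)^[d + 1] (ph e v) ζ ∈ K) →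
              ∀ ζ, (nw A μ)^[d] (ph e v) ζ ∈ K := by
            intro d hd hd1
            by_contra hcon
            push Not at hcon
            exact hno ⟨μ, h, hroot, ph e v, d, hd, hd1, hcon⟩
          have hall : ∀ j : ℕ, (∀ ζ, (nw A μ)^[j + 1] (ph e v) ζ ∈ K) →
              ∀ ζ, (nw A μ)^[1] (ph e v) ζ ∈ K := by
            intro j
            induction j with
            | zero => exact fun hj => hj
            | succ j ih => exact fun hj => ih (hdesc (j + 1) (by omega) hj)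
          have hone := hall k (fun ζ => by
            rw [nw_iter hM, ← hMc, pow_succ', Module.End.mul_apply, hk, map_zero, ph_zero]
            exact K.zero_mem)
          have hone' : ∀ ζ, A (ph e v ζ) - ph e v (μ * ζ) ∈ K := fun ζ => hone ζ
          have hcont : Continuous (ph e v) := LinearMap.continuous_of_finiteDimensional _
          have hBd := Bd_of hK (fun m : ℤ => ph e v (μ ^ m * ζ)) (fun m => ?_)
            ((ph e v) '' (Metric.closedBall (0 : ℂ) ‖ζ‖))
            ((isCompact_closedBall (0 : ℂ) ‖ζ‖).image hcont) (fun m => ?_)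
          · simp only [zpow_zero, one_mul] at hBd
            exact hBd
          · have := hone' (μ ^ m * ζ)
            rw [← mul_assoc, ← zpow_one_add₀ hμ, add_comm] at this
            exact this
          · refine ⟨_, ?_, rfl⟩
            rw [mem_closedBall_zero_iff, norm_mul, norm_zpow, h, one_zpow, one_mul]
      · -- expanded
        refine Bd_of_mem hK (hc2 _ ?_)
        rw [ph_apply]
        refine ctr_of hM' ?_
        rw [← hMi]
        refine (expS Mi).smul_mem ζ (mem_expS_of (inv_ne_zero hμ) ?_ (inv_eig hAB hBA hμ hk))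
        rw [norm_inv]
        exact inv_lt_one_of_one_lt₀ h
  intro Y
  have h3 := (hP (fun i => ((e Y i : ℝ) : ℂ))).1 (htop Submodule.mem_top) 1
  rw [ph_apply, one_smul] at h3
  have h4 : re (fun i => ((e Y i : ℝ) : ℂ)) = e Y := rfl
  rw [h4, LinearEquiv.symm_apply_apply] at h3
  exact h3

end Pool.Agent.W460.LY
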